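import Mathlib

/-!
# The radius of convergence of `q`-deformed real numbers is at least `(3 - √5) / 2`

For `|q| ≤ R_* = (3 - √5) / 2` the disc `|f - 1| ≤ (√5 - 1) / 2` is mapped into itself by
`f ↦ 1 + q f` and by `f ↦ 1 + q (1 - 1 / f)`. All truncations of a `q`-deformed negative continued
fraction are obtained from `1` by such maps, hence their values lie in this disc, and the Cauchy
estimates for their Taylor coefficients pass to the `q`-adic limit.
-/

set_option autoImplicit false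

open Filter Topology Finset
open scoped ENNReal NNReal

namespace Pool.Agent.Results.MP_b13893_an.RadiusBound

noncomputable section

/-! ### Definitions -/

/-- The truncation `c 0 - 1 / (c 1 - 1 / (... - 1 / c N))` of a negative continued fraction. -/
def trunc : ℕ → (ℕ → ℕ) → ℝ
  | 0, c => c 0
  | N + 1, c => c 0 - 1 / trunc N (fun n => c (n + 1))

/-- `x = c 0 - 1 / (c 1 - 1 / (c 2 - ...))` with all `c j ≥ 2`. -/
def IsExpansion (c : ℕ → ℕ) (x : ℝ) : Prop :=
  (∀ j, 2 ≤ c j) ∧ Tendsto (fun N => trunc N c) atTop (𝓝 x)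

/-- The `q`-integer `[n]_q = 1 + q + ... + q ^ (n - 1)`. -/
def qInt (n : ℕ) : PowerSeries ℤ := ∑ i ∈ range n, PowerSeries.X ^ i

/-- The power series at `q = 0` of the `q`-deformed truncation
`[c 0]_q - q ^ (c 0 - 1) / ([c 1]_q - q ^ (c 1 - 1) / (... / [c N]_q))`. The denominators have
constant term `1`, and `PowerSeries.invOfUnit f 1` is the inverse of such a power series `f`. -/
def qTrunc : ℕ → (ℕ → ℕ) → PowerSeries ℤ
  | 0, c => qInt (c 0)
  | N + 1, c => qInt (c 0) -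
      PowerSeries.X ^ (c 0 - 1) * PowerSeries.invOfUnit (qTrunc N (fun n => c (n + 1))) 1

/-- `s` is the `q`-adic limit of the `q`-deformed truncations. -/
def IsQLimit (c : ℕ → ℕ) (s : PowerSeries ℤ) : Prop :=
  ∀ k, ∀ᶠ N in atTop, PowerSeries.coeff k (qTrunc N c) = PowerSeries.coeff k s

/-- `Q x = [x]_q` for all real `x`: for `x ≥ 1` it is the `q`-adic limit of the deformed
truncations of the negative continued fraction of `x`, and `[x - 1]_q = q⁻¹ ([x]_q - 1)`. -/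
structure IsQDeformation (Q : ℝ → LaurentSeries ℤ) : Prop where
  expansion : ∀ x : ℝ, 1 ≤ x → ∀ c : ℕ → ℕ, IsExpansion c x →
    ∃ s : PowerSeries ℤ, IsQLimit c s ∧ Q x = HahnSeries.ofPowerSeries ℤ ℤ s
  shift : ∀ x : ℝ, Q (x - 1) = HahnSeries.single (-1) 1 * (Q x - 1)

/-- The radius of convergence of a Laurent series with finite principal part. -/
def radius (F : LaurentSeries ℤ) : ℝ≥0∞ :=
  (FormalMultilinearSeries.ofScalars ℂ (fun n : ℕ => ((F.coeff n : ℤ) : ℂ))).radius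

/-! ### The invariant disc -/

/-- `ρ = (√5 - 1) / 2` -/
def rho : ℝ := (Real.sqrt 5 - 1) / 2

/-- `R_* = (3 - √5) / 2` -/
def Rs : ℝ := (3 - Real.sqrt 5) / 2

lemma sq5 : Real.sqrt 5 * Real.sqrt 5 = 5 := Real.mul_self_sqrt (by norm_num)

lemma sqrt5_gt : 2.2 < Real.sqrt 5 := by
  rw [Real.lt_sqrt (by norm_num)]; norm_num

lemma sqrt5_lt : Real.sqrt 5 < 2.3 := by
  rw [Real.sqrt_lt' (by norm_num)]; norm_num

lemma rho_pos : 0 < rho := by unfold rho; linarith [sqrt5_gt]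

lemma rho_lt : rho < 1 := by unfold rho; linarith [sqrt5_lt]

lemma Rs_pos : 0 < Rs := by unfold Rs; linarith [sqrt5_lt]

lemma Rs_eq : Rs = 1 - rho := by unfold Rs rho; ring

lemma Rs_mul : Rs * (1 + rho) = rho := by
  unfold Rs rho
  nlinarith [sq5]

lemma rho_sq : rho * rho = 1 - rho := by
  unfold rho; nlinarith [sq5]

/-- value at the complex number `z` of the deformed truncation -/
def cTrunc (z : ℂ) : ℕ → (ℕ → ℕ) → ℂ
  | 0, c => ∑ i ∈ range (c 0), z ^ i
  | N + 1, c => (∑ i ∈ range (c 0), z ^ i) - z ^ (c 0 - 1) * (cTrunc z N (fun n => c (n + 1)))⁻¹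

lemma disc_R {z f : ℂ} (hz : ‖z‖ ≤ Rs) (hf : ‖f - 1‖ ≤ rho) : ‖1 + z * f - 1‖ ≤ rho := by
  have h1 : ‖f‖ ≤ 1 + rho := by
    calc ‖f‖ = ‖1 + (f - 1)‖ := by ring_nf
      _ ≤ ‖(1 : ℂ)‖ + ‖f - 1‖ := norm_add_le _ _
      _ ≤ 1 + rho := by rw [norm_one]; linarith
  calc ‖1 + z * f - 1‖ = ‖z‖ * ‖f‖ := by rw [add_sub_cancel_left, norm_mul]
    _ ≤ Rs * (1 + rho) := by
        apply mul_le_mul hz h1 (norm_nonneg _) Rs_pos.le
    _ = rho := Rs_mul

lemma norm_ge {f : ℂ} (hf : ‖f - 1‖ ≤ rho) : 1 - rho ≤ ‖f‖ := by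
  have h1 : ‖(1 : ℂ)‖ ≤ ‖f‖ + ‖f - 1‖ := by
    calc ‖(1 : ℂ)‖ = ‖f - (f - 1)‖ := by ring_nf
      _ ≤ _ := norm_sub_le _ _
  rw [norm_one] at h1
  linarith

lemma ne_zero_of {f : ℂ} (hf : ‖f - 1‖ ≤ rho) : f ≠ 0 := by
  have := norm_ge hf
  intro h
  rw [h, norm_zero] at this
  linarith [rho_lt]

lemma disc_T {z f : ℂ} (hz : ‖z‖ ≤ Rs) (hf : ‖f - 1‖ ≤ rho) :
    ‖(1 + z) - z * f⁻¹ - 1‖ ≤ rho := by
  have h0 : f ≠ 0 := ne_zero_of hf
  have h1 : (1 + z) - z * f⁻¹ - 1 = z * ((f - 1) / f) := by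
    field_simp
    ring
  rw [h1, norm_mul, norm_div]
  have h2 : ‖f - 1‖ / ‖f‖ ≤ 1 + rho := by
    have h3 := norm_ge hf
    have h4 : 0 < ‖f‖ := norm_pos_iff.2 h0
    rw [div_le_iff₀ h4]
    nlinarith [rho_sq, rho_pos]
  calc ‖z‖ * (‖f - 1‖ / ‖f‖) ≤ Rs * (1 + rho) := by
        apply mul_le_mul hz h2 (by positivity) Rs_pos.le
    _ = rho := Rs_mul

lemma disc_int {z : ℂ} (hz : ‖z‖ ≤ Rs) (n : ℕ) : ‖(∑ i ∈ range (n + 1), z ^ i) - 1‖ ≤ rho := by
  induction n with
  | zero => simp [rho_pos.le]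
  | succ n ih =>
    have h : (∑ i ∈ range (n + 1 + 1), z ^ i) = 1 + z * ∑ i ∈ range (n + 1), z ^ i := by
      rw [Finset.sum_range_succ', Finset.mul_sum, add_comm]
      simp [pow_succ']
    rw [h]
    exact disc_R hz ih

lemma disc_step {z f : ℂ} (hz : ‖z‖ ≤ Rs) (hf : ‖f - 1‖ ≤ rho) (n : ℕ) :
    ‖(∑ i ∈ range (n + 2), z ^ i) - z ^ (n + 1) * f⁻¹ - 1‖ ≤ rho := by
  induction n with
  | zero =>
    have : (∑ i ∈ range (0 + 2), z ^ i) = 1 + z := by simp [Finset.sum_range_succ]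
    rw [this, zero_add, pow_one]
    exact disc_T hz hf
  | succ n ih =>
    have h : (∑ i ∈ range (n + 1 + 2), z ^ i) - z ^ (n + 1 + 1) * f⁻¹ =
        1 + z * ((∑ i ∈ range (n + 2), z ^ i) - z ^ (n + 1) * f⁻¹) := by
      rw [show n + 1 + 2 = (n + 2) + 1 by ring, Finset.sum_range_succ', mul_sub, Finset.mul_sum]
      simp only [pow_succ', pow_zero]
      ring
    rw [h]
    exact disc_R hz ih

lemma cTrunc_mem {z : ℂ} (hz : ‖z‖ ≤ Rs) (N : ℕ) :
    ∀ c : ℕ → ℕ, (∀ j, 2 ≤ c j) → ‖cTrunc z N c - 1‖ ≤ rho := by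
  induction N with
  | zero =>
    intro c hc
    obtain ⟨n, hn⟩ : ∃ n, c 0 = n + 1 := ⟨c 0 - 1, by have := hc 0; omega⟩
    show ‖(∑ i ∈ range (c 0), z ^ i) - 1‖ ≤ rho
    rw [hn]
    exact disc_int hz n
  | succ N ih =>
    intro c hc
    obtain ⟨n, hn⟩ : ∃ n, c 0 = n + 2 := ⟨c 0 - 2, by have := hc 0; omega⟩
    have h1 := ih (fun n => c (n + 1)) (fun j => hc _)
    show ‖(∑ i ∈ range (c 0), z ^ i) - z ^ (c 0 - 1) * (cTrunc z N (fun n => c (n + 1)))⁻¹ - 1‖ ≤ rho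
    rw [hn]
    exact disc_step hz h1 n

/-! ### Power series and analytic functions -/

/-- the power series `f` converges to `F z` for all `‖z‖ < R` -/
def Rep (R : ℝ) (f : PowerSeries ℂ) (F : ℂ → ℂ) : Prop :=
  ∀ z : ℂ, ‖z‖ < R → HasSum (fun k => PowerSeries.coeff k f * z ^ k) (F z)

lemma Rep.congr {R : ℝ} {f : PowerSeries ℂ} {F G : ℂ → ℂ} (h : Rep R f F)
    (hFG : ∀ z, ‖z‖ < R → F z = G z) : Rep R f G := fun z hz => by
  rw [← hFG z hz]; exact h z hz

lemma rep_one (R : ℝ) : Rep R 1 (fun _ => 1) := fun z _ => by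
  have : (fun k => PowerSeries.coeff k (1 : PowerSeries ℂ) * z ^ k) =
      fun k => if k = 0 then 1 else 0 := by
    funext k
    rw [PowerSeries.coeff_one]
    split_ifs with h
    · simp [h]
    · simp
  rw [this]
  exact hasSum_ite_eq 0 1

lemma rep_X (R : ℝ) : Rep R PowerSeries.X (fun z => z) := fun z _ => by
  have : (fun k => PowerSeries.coeff k (PowerSeries.X : PowerSeries ℂ) * z ^ k) =
      fun k => if k = 1 then z else 0 := by
    funext k
    rw [PowerSeries.coeff_X]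
    split_ifs with h
    · simp [h]
    · simp
  rw [this]
  exact hasSum_ite_eq 1 z

lemma Rep.add {R : ℝ} {f g : PowerSeries ℂ} {F G : ℂ → ℂ} (hf : Rep R f F) (hg : Rep R g G) :
    Rep R (f + g) (fun z => F z + G z) := fun z hz => by
  have := (hf z hz).add (hg z hz)
  simpa [add_mul] using this

lemma Rep.sub {R : ℝ} {f g : PowerSeries ℂ} {F G : ℂ → ℂ} (hf : Rep R f F) (hg : Rep R g G) :
    Rep R (f - g) (fun z => F z - G z) := fun z hz => by
  have := (hf z hz).sub (hg z hz)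
  simpa [sub_mul] using this

lemma Rep.mul {R : ℝ} {f g : PowerSeries ℂ} {F G : ℂ → ℂ} (hf : Rep R f F) (hg : Rep R g G) :
    Rep R (f * g) (fun z => F z * G z) := fun z hz => by
  have h1 := hf z hz
  have h2 := hg z hz
  have n1 := h1.summable.norm
  have n2 := h2.summable.norm
  have h3 := (summable_norm_sum_mul_antidiagonal_of_summable_norm n1 n2).of_norm
  have h4 := tsum_mul_tsum_eq_tsum_sum_antidiagonal_of_summable_norm n1 n2
  rw [h1.tsum_eq, h2.tsum_eq] at h4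
  have h5 : (fun k => PowerSeries.coeff k (f * g) * z ^ k) = fun n =>
      ∑ kl ∈ antidiagonal n, (PowerSeries.coeff kl.1 f * z ^ kl.1) *
        (PowerSeries.coeff kl.2 g * z ^ kl.2) := by
    funext n
    rw [PowerSeries.coeff_mul, Finset.sum_mul]
    refine Finset.sum_congr rfl fun kl hkl => ?_
    have hkl' := Finset.HasAntidiagonal.mem_antidiagonal.1 hkl
    rw [← hkl', pow_add]
    ring
  show HasSum _ (F z * G z)
  rw [h5, h4]
  exact h3.hasSum

lemma Rep.pow {R : ℝ} {f : PowerSeries ℂ} {F : ℂ → ℂ} (hf : Rep R f F) (n : ℕ) :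
    Rep R (f ^ n) (fun z => F z ^ n) := by
  induction n with
  | zero => simpa using rep_one R
  | succ n ih => simpa [pow_succ] using ih.mul hf

lemma rep_sum (R : ℝ) (n : ℕ) :
    Rep R (∑ i ∈ range n, PowerSeries.X ^ i) (fun z => ∑ i ∈ range n, z ^ i) := by
  induction n with
  | zero =>
    intro z _
    simp
  | succ n ih => simpa [Finset.sum_range_succ] using ih.add ((rep_X R).pow n)

lemma Rep.hasFPowerSeriesOnBall {R : ℝ} (hR : 0 < R) {f : PowerSeries ℂ} {F : ℂ → ℂ}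
    (hf : Rep R f F) : HasFPowerSeriesOnBall F
      (FormalMultilinearSeries.ofScalars ℂ (fun n => PowerSeries.coeff n f)) 0
      (ENNReal.ofReal R) where
  r_le := by
    refine ENNReal.le_of_forall_nnreal_lt fun r hr => ?_
    have hr' : (r : ℝ) < R := by
      rw [← ENNReal.ofReal_coe_nnreal, ENNReal.ofReal_lt_ofReal_iff hR] at hr
      exact hr
    have h1 := hf (r : ℂ) (by simpa using hr')
    have h2 := h1.summable.norm
    refine FormalMultilinearSeries.le_radius_of_summable_norm _ ?_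
    refine h2.congr fun n => ?_
    rw [FormalMultilinearSeries.ofScalars_norm]
    simp
  r_pos := by simpa using hR
  hasSum := by
    intro y hy
    have hy' : ‖y‖ < R := by
      rw [mem_eball_zero_iff] at hy
      rw [← ofReal_norm, ENNReal.ofReal_lt_ofReal_iff hR] at hy
      exact hy
    have h1 := hf y hy'
    simpa [FormalMultilinearSeries.ofScalars_apply_eq, zero_add, mul_comm] using h1

lemma rep_unique {R : ℝ} (hR : 0 < R) {f g : PowerSeries ℂ} {F : ℂ → ℂ} (hf : Rep R f F)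
    (hg : Rep R g F) : f = g := by
  have h1 := (hf.hasFPowerSeriesOnBall hR).hasFPowerSeriesAt
  have h2 := (hg.hasFPowerSeriesOnBall hR).hasFPowerSeriesAt
  have h3 := h1.eq_formalMultilinearSeries h2
  ext n
  have h4 := congrArg (fun p => FormalMultilinearSeries.coeff p n) h3
  simpa using h4

lemma Rep.differentiableOn {R : ℝ} (hR : 0 < R) {f : PowerSeries ℂ} {F : ℂ → ℂ}
    (hf : Rep R f F) : DifferentiableOn ℂ F (Metric.ball 0 R) := by
  have h := (hf.hasFPowerSeriesOnBall hR).differentiableOn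
  rwa [Metric.eball_ofReal] at h

lemma Rep.cauchy {R : ℝ} (hR : 0 < R) {f : PowerSeries ℂ} {F : ℂ → ℂ}
    (hf : Rep R f F) {r : ℝ≥0} (hr : 0 < r) (hrR : (r : ℝ) < R) (n : ℕ) :
    PowerSeries.coeff n f = (cauchyPowerSeries F 0 r).coeff n := by
  have h1 := (hf.hasFPowerSeriesOnBall hR).hasFPowerSeriesAt
  have h2 : DifferentiableOn ℂ F (Metric.closedBall 0 r) :=
    (hf.differentiableOn hR).mono (Metric.closedBall_subset_ball hrR)
  have h3 := (h2.hasFPowerSeriesOnBall hr).hasFPowerSeriesAt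
  have h4 := congrArg (fun p => FormalMultilinearSeries.coeff p n)
    (h1.eq_formalMultilinearSeries h3)
  simpa using h4

lemma Rep.coeff_le {R : ℝ} (hR : 0 < R) {f : PowerSeries ℂ} {F : ℂ → ℂ}
    (hf : Rep R f F) {M : ℝ} (hM : ∀ z, ‖z‖ < R → ‖F z‖ ≤ M) (k : ℕ) :
    ‖PowerSeries.coeff k f‖ * R ^ k ≤ M := by
  have key : ∀ r : ℝ, 0 < r → r < R → ‖PowerSeries.coeff k f‖ * r ^ k ≤ M := by
    intro r hr hrR
    have h1 := hf.cauchy hR (r := ⟨r, hr.le⟩) hr hrR k
    rw [h1]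
    have h2 := norm_cauchyPowerSeries_le F 0 r k
    have h3 : ‖(cauchyPowerSeries F 0 r).coeff k‖ ≤ ‖cauchyPowerSeries F 0 r k‖ := by
      rw [FormalMultilinearSeries.norm_apply_eq_norm_coef]
    have h4 : (∫ θ : ℝ in (0)..2 * Real.pi, ‖F (circleMap 0 r θ)‖) ≤ 2 * Real.pi * M := by
      have h5 : ∀ θ ∈ Set.uIoc 0 (2 * Real.pi), ‖‖F (circleMap 0 r θ)‖‖ ≤ M := by
        intro θ _
        rw [norm_norm]
        apply hM
        rw [norm_circleMap_zero, abs_of_pos hr]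
        exact hrR
      have h6 := intervalIntegral.norm_integral_le_of_norm_le_const h5
      rw [sub_zero, abs_of_pos Real.two_pi_pos] at h6
      calc _ ≤ ‖∫ θ : ℝ in (0)..2 * Real.pi, ‖F (circleMap 0 r θ)‖‖ := Real.le_norm_self _
        _ ≤ M * (2 * Real.pi) := h6
        _ = _ := by ring
    have hrk : 0 < r ^ k := pow_pos hr k
    calc ‖(cauchyPowerSeries F 0 r).coeff k‖ * r ^ k
        ≤ ((2 * Real.pi)⁻¹ * (∫ θ : ℝ in (0)..2 * Real.pi, ‖F (circleMap 0 r θ)‖)) *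
          |r|⁻¹ ^ k * r ^ k := by
          apply mul_le_mul_of_nonneg_right _ hrk.le
          exact h3.trans h2
      _ ≤ ((2 * Real.pi)⁻¹ * (2 * Real.pi * M)) * |r|⁻¹ ^ k * r ^ k := by
          gcongr
      _ = M := by
          rw [abs_of_pos hr, inv_pow]
          field_simp
  have hcl : IsClosed {r : ℝ | ‖PowerSeries.coeff k f‖ * r ^ k ≤ M} :=
    isClosed_le (by fun_prop) continuous_const
  have hsub : Set.Ioo 0 R ⊆ {r : ℝ | ‖PowerSeries.coeff k f‖ * r ^ k ≤ M} :=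
    fun r hr => key r hr.1 hr.2
  have h7 : R ∈ closure (Set.Ioo 0 R) := by
    rw [closure_Ioo hR.ne]
    exact ⟨hR.le, le_rfl⟩
  exact hcl.closure_subset_iff.2 hsub h7

lemma Rep.exists_inv {R : ℝ} (hR : 0 < R) {f : PowerSeries ℂ} {F : ℂ → ℂ} (hf : Rep R f F)
    (h0 : ∀ z, ‖z‖ < R → F z ≠ 0) :
    ∃ g : PowerSeries ℂ, Rep R g (fun z => (F z)⁻¹) ∧ f * g = 1 := by
  have hd : DifferentiableOn ℂ (fun z => (F z)⁻¹) (Metric.ball 0 R) :=
    (hf.differentiableOn hR).inv fun z hz => h0 z (by simpa using hz)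
  set G : ℂ → ℂ := fun z => (F z)⁻¹ with hG
  have hps : ∀ r : ℝ≥0, 0 < r → (r : ℝ) < R →
      HasFPowerSeriesOnBall G (cauchyPowerSeries G 0 r) 0 r := fun r hr hrR =>
    (hd.mono (Metric.closedBall_subset_ball hrR)).hasFPowerSeriesOnBall hr
  let r0 : ℝ≥0 := ⟨R / 2, by positivity⟩
  have hr0 : 0 < r0 := by
    show (0 : ℝ) < R / 2
    positivity
  have hr0R : (r0 : ℝ) < R := by
    show R / 2 < R
    linarith
  let g : PowerSeries ℂ := PowerSeries.mk fun n => (cauchyPowerSeries G 0 r0).coeff n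
  have hg : Rep R g G := by
    intro z hz
    obtain ⟨r, hzr, hrR⟩ := exists_between hz
    have hr : 0 < r := lt_of_le_of_lt (norm_nonneg _) hzr
    let r1 : ℝ≥0 := ⟨r, hr.le⟩
    have h1 := hps r1 hr hrR
    have h2 := h1.hasFPowerSeriesAt.eq_formalMultilinearSeries
      (hps r0 hr0 hr0R).hasFPowerSeriesAt
    rw [h2] at h1
    have h3 : z ∈ Metric.eball (0 : ℂ) (r1 : ℝ≥0∞) := by
      rw [mem_eball_zero_iff, ← ofReal_norm, ← ENNReal.ofReal_coe_nnreal]
      exact (ENNReal.ofReal_lt_ofReal_iff (show (0 : ℝ) < (r1 : ℝ) from hr)).2 hzr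
    have h4 := h1.hasSum h3
    rw [zero_add] at h4
    have h5 : (fun k => PowerSeries.coeff k g * z ^ k) =
        fun n => (cauchyPowerSeries G 0 r0 n) fun _ => z := by
      funext n
      rw [FormalMultilinearSeries.apply_eq_pow_smul_coeff, smul_eq_mul, mul_comm]
      simp [g]
    rw [h5]
    exact h4
  refine ⟨g, hg, ?_⟩
  apply rep_unique hR (F := fun _ => 1) _ (rep_one R)
  exact (hf.mul hg).congr fun z hz => mul_inv_cancel₀ (h0 z hz)

/-! ### The coefficients of the deformed truncations -/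

lemma qInt_zero_coeff {n : ℕ} (hn : 1 ≤ n) : PowerSeries.constantCoeff (qInt n) = 1 := by
  obtain ⟨m, rfl⟩ : ∃ m, n = m + 1 := ⟨n - 1, by omega⟩
  unfold qInt
  rw [Finset.sum_range_succ', map_add, map_sum]
  simp

lemma qTrunc_const (N : ℕ) : ∀ c : ℕ → ℕ, (∀ j, 2 ≤ c j) →
    PowerSeries.constantCoeff (qTrunc N c) = 1 := by
  cases N with
  | zero =>
    intro c hc
    exact qInt_zero_coeff (by have := hc 0; omega)
  | succ N =>
    intro c hc
    obtain ⟨m, hm⟩ : ∃ m, c 0 - 1 = m + 1 := ⟨c 0 - 2, by have := hc 0; omega⟩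
    show PowerSeries.constantCoeff (qInt (c 0) -
      PowerSeries.X ^ (c 0 - 1) * PowerSeries.invOfUnit (qTrunc N (fun n => c (n + 1))) 1) = 1
    rw [map_sub, map_mul, qInt_zero_coeff (by have := hc 0; omega), hm, pow_succ, map_mul,
      PowerSeries.constantCoeff_X]
    simp

lemma qTrunc_mul_inv (N : ℕ) (c : ℕ → ℕ) (hc : ∀ j, 2 ≤ c j) :
    qTrunc N c * PowerSeries.invOfUnit (qTrunc N c) 1 = 1 :=
  PowerSeries.mul_invOfUnit _ _ (by rw [qTrunc_const N c hc]; rfl)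

lemma rep_qTrunc (N : ℕ) : ∀ c : ℕ → ℕ, (∀ j, 2 ≤ c j) →
    Rep Rs ((qTrunc N c).map (Int.castRingHom ℂ)) (fun z => cTrunc z N c) := by
  induction N with
  | zero =>
    intro c _
    have h : (qTrunc 0 c).map (Int.castRingHom ℂ) =
        ∑ i ∈ range (c 0), (PowerSeries.X : PowerSeries ℂ) ^ i := by
      show (qInt (c 0)).map (Int.castRingHom ℂ) = _
      unfold qInt
      rw [map_sum]
      simp
    rw [h]
    exact rep_sum Rs (c 0)
  | succ N ih =>
    intro c hc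
    set c' : ℕ → ℕ := fun n => c (n + 1) with hc'
    have hc2 : ∀ j, 2 ≤ c' j := fun j => hc _
    have h1 := ih c' hc2
    obtain ⟨g, hg, hg1⟩ := h1.exists_inv Rs_pos (fun z hz => ne_zero_of (cTrunc_mem hz.le N c' hc2))
    have h2 : (qTrunc N c').map (Int.castRingHom ℂ) *
        (PowerSeries.invOfUnit (qTrunc N c') 1).map (Int.castRingHom ℂ) = 1 := by
      rw [← map_mul, qTrunc_mul_inv N c' hc2, map_one]
    have h3 : (PowerSeries.invOfUnit (qTrunc N c') 1).map (Int.castRingHom ℂ) = g := by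
      calc _ = ((qTrunc N c').map (Int.castRingHom ℂ) * g) *
            (PowerSeries.invOfUnit (qTrunc N c') 1).map (Int.castRingHom ℂ) := by
              rw [hg1, one_mul]
        _ = ((qTrunc N c').map (Int.castRingHom ℂ) *
            (PowerSeries.invOfUnit (qTrunc N c') 1).map (Int.castRingHom ℂ)) * g := by ring
        _ = g := by rw [h2, one_mul]
    have h4 : (qTrunc (N + 1) c).map (Int.castRingHom ℂ) =
        (∑ i ∈ range (c 0), (PowerSeries.X : PowerSeries ℂ) ^ i) -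
          PowerSeries.X ^ (c 0 - 1) * g := by
      show (qInt (c 0) - PowerSeries.X ^ (c 0 - 1) *
        PowerSeries.invOfUnit (qTrunc N c') 1).map (Int.castRingHom ℂ) = _
      rw [map_sub, map_mul, h3]
      unfold qInt
      rw [map_sum]
      simp
    rw [h4]
    exact (rep_sum Rs (c 0)).sub (((rep_X Rs).pow (c 0 - 1)).mul hg)

lemma coeff_bound (N : ℕ) (c : ℕ → ℕ) (hc : ∀ j, 2 ≤ c j) (k : ℕ) :
    |((PowerSeries.coeff k (qTrunc N c) : ℤ) : ℝ)| * Rs ^ k ≤ 1 + rho := by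
  have h := (rep_qTrunc N c hc).coeff_le Rs_pos (M := 1 + rho) (fun z hz => by
    have h1 := cTrunc_mem hz.le N c hc
    calc ‖cTrunc z N c‖ = ‖1 + (cTrunc z N c - 1)‖ := by ring_nf
      _ ≤ ‖(1 : ℂ)‖ + ‖cTrunc z N c - 1‖ := norm_add_le _ _
      _ ≤ 1 + rho := by rw [norm_one]; linarith) k
  rw [PowerSeries.coeff_map] at h
  have h2 : ‖(Int.castRingHom ℂ) (PowerSeries.coeff k (qTrunc N c))‖ =
      |((PowerSeries.coeff k (qTrunc N c) : ℤ) : ℝ)| := by
    rw [eq_intCast, Complex.norm_intCast]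
  rwa [h2] at h

/-! ### The `q`-adic limit -/

lemma dvd_succ_sub (N : ℕ) : ∀ c : ℕ → ℕ, (∀ j, 2 ≤ c j) →
    (PowerSeries.X : PowerSeries ℤ) ^ (N + 1) ∣ qTrunc (N + 1) c - qTrunc N c := by
  induction N with
  | zero =>
    intro c hc
    obtain ⟨m, hm⟩ : ∃ m, c 0 - 1 = m + 1 := ⟨c 0 - 2, by have := hc 0; omega⟩
    show (PowerSeries.X : PowerSeries ℤ) ^ (0 + 1) ∣ (qInt (c 0) -
      PowerSeries.X ^ (c 0 - 1) * PowerSeries.invOfUnit (qTrunc 0 (fun n => c (n + 1))) 1) -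
        qInt (c 0)
    rw [hm]
    exact ⟨-(PowerSeries.X ^ m * PowerSeries.invOfUnit (qTrunc 0 (fun n => c (n + 1))) 1), by ring⟩
  | succ N ih =>
    intro c hc
    set c' : ℕ → ℕ := fun n => c (n + 1) with hc'
    have hc2 : ∀ j, 2 ≤ c' j := fun j => hc _
    obtain ⟨m, hm⟩ : ∃ m, c 0 - 1 = m + 1 := ⟨c 0 - 2, by have := hc 0; omega⟩
    obtain ⟨w, hw⟩ := ih c' hc2
    have h1 := qTrunc_mul_inv N c' hc2
    have h2 := qTrunc_mul_inv (N + 1) c' hc2
    show (PowerSeries.X : PowerSeries ℤ) ^ (N + 1 + 1) ∣ (qInt (c 0) -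
      PowerSeries.X ^ (c 0 - 1) * PowerSeries.invOfUnit (qTrunc (N + 1) c') 1) -
        (qInt (c 0) - PowerSeries.X ^ (c 0 - 1) * PowerSeries.invOfUnit (qTrunc N c') 1)
    rw [hm]
    set a := qTrunc N c'
    set b := qTrunc (N + 1) c'
    set ia := PowerSeries.invOfUnit a 1
    set ib := PowerSeries.invOfUnit b 1
    have h3 : ia - ib = ia * ib * (b - a) := by
      calc ia - ib = ia * (b * ib) - (a * ia) * ib := by rw [h1, h2]; ring
        _ = _ := by ring
    refine ⟨PowerSeries.X ^ m * (ia * ib * w), ?_⟩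
    calc (qInt (c 0) - PowerSeries.X ^ (m + 1) * ib) - (qInt (c 0) - PowerSeries.X ^ (m + 1) * ia)
        = PowerSeries.X ^ (m + 1) * (ia - ib) := by ring
      _ = PowerSeries.X ^ (m + 1) * (ia * ib * (PowerSeries.X ^ (N + 1) * w)) := by rw [h3, hw]
      _ = _ := by ring

lemma coeff_stable (c : ℕ → ℕ) (hc : ∀ j, 2 ≤ c j) (k : ℕ) (N : ℕ) (hN : k ≤ N) :
    PowerSeries.coeff k (qTrunc N c) = PowerSeries.coeff k (qTrunc k c) := by
  induction N, hN using Nat.le_induction with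
  | base => rfl
  | succ N hN ih =>
    rw [← ih, ← sub_eq_zero, ← map_sub]
    exact (PowerSeries.X_pow_dvd_iff.1 (dvd_succ_sub N c hc)) k (by omega)

/-- the `q`-adic limit -/
def lim (c : ℕ → ℕ) : PowerSeries ℤ := PowerSeries.mk fun k => PowerSeries.coeff k (qTrunc k c)

lemma isQLimit_lim (c : ℕ → ℕ) (hc : ∀ j, 2 ≤ c j) : IsQLimit c (lim c) := by
  intro k
  filter_upwards [eventually_ge_atTop k] with N hN
  rw [coeff_stable c hc k N hN, lim, PowerSeries.coeff_mk]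

lemma IsQLimit.unique {c : ℕ → ℕ} {s t : PowerSeries ℤ} (hs : IsQLimit c s) (ht : IsQLimit c t) :
    s = t := by
  ext k
  obtain ⟨N, h1, h2⟩ := ((hs k).and (ht k)).exists
  rw [← h1, h2]

lemma lim_bound (c : ℕ → ℕ) (hc : ∀ j, 2 ≤ c j) (k : ℕ) :
    |((PowerSeries.coeff k (lim c) : ℤ) : ℝ)| * Rs ^ k ≤ 1 + rho := by
  rw [lim, PowerSeries.coeff_mk]
  exact coeff_bound k c hc k

/-- add one to the first term -/
def bump (c : ℕ → ℕ) : ℕ → ℕ := fun n => if n = 0 then c 0 + 1 else c n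

lemma bump_ge {c : ℕ → ℕ} (hc : ∀ j, 2 ≤ c j) (j : ℕ) : 2 ≤ bump c j := by
  unfold bump
  split_ifs
  · have := hc 0; omega
  · exact hc j

lemma bump_tail (c : ℕ → ℕ) : (fun n => bump c (n + 1)) = fun n => c (n + 1) := by
  funext n; simp [bump]

lemma qInt_succ (n : ℕ) : qInt (n + 1) = 1 + PowerSeries.X * qInt n := by
  unfold qInt
  rw [Finset.sum_range_succ', Finset.mul_sum, add_comm]
  simp [pow_succ']

lemma trunc_bump (N : ℕ) (c : ℕ → ℕ) : trunc N (bump c) = trunc N c + 1 := by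
  cases N with
  | zero => show ((bump c 0 : ℕ) : ℝ) = (c 0 : ℝ) + 1; simp [bump]
  | succ N =>
    show ((bump c 0 : ℕ) : ℝ) - 1 / trunc N (fun n => bump c (n + 1)) =
      ((c 0 : ℝ) - 1 / trunc N (fun n => c (n + 1))) + 1
    rw [bump_tail]
    simp only [bump, if_true]
    push_cast
    ring

lemma qTrunc_bump (N : ℕ) (c : ℕ → ℕ) (hc : ∀ j, 2 ≤ c j) :
    qTrunc N (bump c) = 1 + PowerSeries.X * qTrunc N c := by
  cases N with
  | zero =>
    show qInt (bump c 0) = 1 + PowerSeries.X * qInt (c 0)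
    rw [← qInt_succ]
    simp [bump]
  | succ N =>
    show qInt (bump c 0) - PowerSeries.X ^ (bump c 0 - 1) *
        PowerSeries.invOfUnit (qTrunc N (fun n => bump c (n + 1))) 1 =
      1 + PowerSeries.X * (qInt (c 0) - PowerSeries.X ^ (c 0 - 1) *
        PowerSeries.invOfUnit (qTrunc N (fun n => c (n + 1))) 1)
    rw [bump_tail]
    obtain ⟨m, hm⟩ : ∃ m, c 0 = m + 1 := ⟨c 0 - 1, by have := hc 0; omega⟩
    simp only [bump, if_true]
    rw [qInt_succ, hm, Nat.add_sub_cancel, Nat.add_sub_cancel]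
    ring

lemma lim_bump (c : ℕ → ℕ) (hc : ∀ j, 2 ≤ c j) : lim (bump c) = 1 + PowerSeries.X * lim c := by
  refine (isQLimit_lim _ (bump_ge hc)).unique ?_
  intro k
  have h1 := isQLimit_lim c hc (k - 1)
  filter_upwards [h1] with N hN
  rw [qTrunc_bump N c hc, map_add, map_add]
  congr 1
  cases k with
  | zero => simp
  | succ k =>
    rw [PowerSeries.coeff_succ_X_mul, PowerSeries.coeff_succ_X_mul]
    simpa using hN

/-! ### Negative continued fractions -/

lemma trunc_ge_one (N : ℕ) : ∀ c : ℕ → ℕ, (∀ j, 2 ≤ c j) → 1 ≤ trunc N c := by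
  induction N with
  | zero =>
    intro c hc
    show (1 : ℝ) ≤ c 0
    have := hc 0
    exact_mod_cast (by omega : 1 ≤ c 0)
  | succ N ih =>
    intro c hc
    have h1 := ih (fun n => c (n + 1)) (fun j => hc _)
    show (1 : ℝ) ≤ c 0 - 1 / trunc N (fun n => c (n + 1))
    have h2 : 1 / trunc N (fun n => c (n + 1)) ≤ 1 := by
      rw [div_le_one (by linarith)]; exact h1
    have h3 : (2 : ℝ) ≤ c 0 := by exact_mod_cast hc 0
    linarith

lemma trunc_succ_le (N : ℕ) : ∀ c : ℕ → ℕ, (∀ j, 2 ≤ c j) → trunc (N + 1) c ≤ trunc N c := by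
  induction N with
  | zero =>
    intro c hc
    show (c 0 : ℝ) - 1 / trunc 0 (fun n => c (n + 1)) ≤ c 0
    have h1 := trunc_ge_one 0 (fun n => c (n + 1)) (fun j => hc _)
    have : 0 ≤ 1 / trunc 0 (fun n => c (n + 1)) := by positivity
    linarith
  | succ N ih =>
    intro c hc
    have h1 := ih (fun n => c (n + 1)) (fun j => hc _)
    have h2 := trunc_ge_one (N + 1) (fun n => c (n + 1)) (fun j => hc _)
    show (c 0 : ℝ) - 1 / trunc (N + 1) (fun n => c (n + 1)) ≤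
      c 0 - 1 / trunc N (fun n => c (n + 1))
    have h3 := one_div_le_one_div_of_le (by linarith) h1
    linarith

lemma exists_lim (c : ℕ → ℕ) (hc : ∀ j, 2 ≤ c j) :
    ∃ y : ℝ, 1 ≤ y ∧ Tendsto (fun N => trunc N c) atTop (𝓝 y) := by
  have hanti : Antitone (fun N => trunc N c) := antitone_nat_of_succ_le fun N => trunc_succ_le N c hc
  have hbdd : BddBelow (Set.range fun N => trunc N c) :=
    ⟨1, by rintro _ ⟨N, rfl⟩; exact trunc_ge_one N c hc⟩
  have h := tendsto_atTop_ciInf hanti hbdd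
  exact ⟨_, ge_of_tendsto' h fun N => trunc_ge_one N c hc, h⟩

lemma IsExpansion.tail {c : ℕ → ℕ} {x : ℝ} (h : IsExpansion c x) :
    ∃ y : ℝ, 1 ≤ y ∧ IsExpansion (fun n => c (n + 1)) y ∧ x = c 0 - 1 / y := by
  obtain ⟨y, hy, hlim⟩ := exists_lim (fun n => c (n + 1)) (fun j => h.1 _)
  refine ⟨y, hy, ⟨fun j => h.1 _, hlim⟩, ?_⟩
  have h1 : Tendsto (fun N => trunc (N + 1) c) atTop (𝓝 x) := h.2.comp (tendsto_add_atTop_nat 1)
  have h2 : Tendsto (fun N => (c 0 : ℝ) - 1 / trunc N (fun n => c (n + 1))) atTop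
      (𝓝 (c 0 - 1 / y)) := tendsto_const_nhds.sub (tendsto_const_nhds.div hlim (by linarith))
  exact tendsto_nhds_unique h1 h2

lemma IsExpansion.first {c : ℕ → ℕ} {x : ℝ} (h : IsExpansion c x) :
    c 0 = ⌊x⌋₊ + 1 ∧ IsExpansion (fun n => c (n + 1)) (1 / (⌊x⌋₊ + 1 - x)) := by
  obtain ⟨y, hy, hexp, hx⟩ := h.tail
  have hc0 := h.1 0
  obtain ⟨m, hm⟩ : ∃ m, c 0 = m + 1 := ⟨c 0 - 1, by omega⟩
  have h1 : 1 / y ≤ 1 := by rw [div_le_one (by linarith)]; exact hy
  have h2 : 0 < 1 / y := by positivity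
  have h3 : ⌊x⌋₊ = m := by
    rw [Nat.floor_eq_iff (by rw [hx, hm]; push_cast; linarith [(Nat.cast_nonneg m : (0:ℝ) ≤ m)])]
    rw [hx, hm]
    push_cast
    constructor <;> linarith
  refine ⟨by rw [h3, hm], ?_⟩
  have h4 : 1 / ((⌊x⌋₊ : ℝ) + 1 - x) = y := by
    rw [h3, hx, hm]
    push_cast
    have : (m : ℝ) + 1 - (m + 1 - 1 / y) = 1 / y := by ring
    rw [this, one_div_one_div]
  rw [h4]
  exact hexp

lemma IsExpansion.unique (n : ℕ) : ∀ {c d : ℕ → ℕ} {x : ℝ}, IsExpansion c x → IsExpansion d x →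
    c n = d n := by
  induction n with
  | zero =>
    intro c d x hc hd
    rw [hc.first.1, hd.first.1]
  | succ n ih =>
    intro c d x hc hd
    exact ih hc.first.2 hd.first.2

/-- the digits of a real number -/
def ex : ℕ → ℝ → ℕ
  | 0, x => ⌊x⌋₊ + 1
  | n + 1, x => ex n (1 / (⌊x⌋₊ + 1 - x))

lemma next_ge {x : ℝ} (hx : 1 ≤ x) : 1 ≤ 1 / ((⌊x⌋₊ : ℝ) + 1 - x) := by
  have h1 := Nat.floor_le (by linarith : 0 ≤ x)
  have h2 := Nat.lt_floor_add_one x
  rw [le_div_iff₀ (by linarith)]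
  linarith

lemma ex_ge (n : ℕ) : ∀ x : ℝ, 1 ≤ x → 2 ≤ ex n x := by
  induction n with
  | zero =>
    intro x hx
    show 2 ≤ ⌊x⌋₊ + 1
    have : 1 ≤ ⌊x⌋₊ := by rw [Nat.le_floor_iff (by linarith)]; exact_mod_cast hx
    omega
  | succ n ih => intro x hx; exact ih _ (next_ge hx)

lemma trunc_ex (N : ℕ) : ∀ x : ℝ, 1 ≤ x →
    0 ≤ trunc N (fun n => ex n x) - x ∧ trunc N (fun n => ex n x) - x ≤ 1 / (N + 1) := by
  induction N with
  | zero =>
    intro x hx
    have h1 := Nat.floor_le (by linarith : 0 ≤ x)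
    have h2 := Nat.lt_floor_add_one x
    show 0 ≤ ((⌊x⌋₊ + 1 : ℕ) : ℝ) - x ∧ ((⌊x⌋₊ + 1 : ℕ) : ℝ) - x ≤ 1 / ((0 : ℕ) + 1)
    push_cast
    constructor
    · linarith
    · rw [zero_add, div_one]; linarith
  | succ N ih =>
    intro x hx
    have h1 := Nat.floor_le (by linarith : 0 ≤ x)
    have h2 := Nat.lt_floor_add_one x
    have hy := next_ge hx
    set y := 1 / ((⌊x⌋₊ : ℝ) + 1 - x) with hydef
    obtain ⟨h3, h4⟩ := ih y hy
    set t := trunc N (fun n => ex n y) with ht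
    have hxy : x = (⌊x⌋₊ : ℝ) + 1 - 1 / y := by
      rw [hydef, one_div_one_div]; ring
    have hval : trunc (N + 1) (fun n => ex n x) = (⌊x⌋₊ : ℝ) + 1 - 1 / t := by
      show ((⌊x⌋₊ + 1 : ℕ) : ℝ) - 1 / trunc N (fun n => ex (n + 1) x) = _
      push_cast
      rfl
    have hdiff : trunc (N + 1) (fun n => ex n x) - x = (t - y) / (y * t) := by
      rw [hval]
      have ht0 : 0 < t := by linarith
      have hy0 : 0 < y := by linarith
      have e1 : (⌊x⌋₊ : ℝ) + 1 - 1 / t - x = 1 / y - 1 / t := by linarith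
      rw [e1]
      field_simp
    rw [hdiff]
    have ht0 : 0 < t := by linarith
    have hy0 : 0 < y := by linarith
    constructor
    · positivity
    · rw [div_le_iff₀ (by positivity)]
      have hN : (0 : ℝ) < (N : ℝ) + 1 := by positivity
      push_cast
      have h5 : (t - y) * (N + 1) ≤ 1 := by
        rw [le_div_iff₀ hN] at h4
        exact h4
      rw [one_div, ← div_eq_inv_mul, le_div_iff₀ (by positivity)]
      nlinarith

lemma isExpansion_ex {x : ℝ} (hx : 1 ≤ x) : IsExpansion (fun n => ex n x) x := by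
  refine ⟨fun j => ex_ge j x hx, ?_⟩
  have h1 : Tendsto (fun N : ℕ => (1 : ℝ) / ((N : ℝ) + 1)) atTop (𝓝 0) :=
    tendsto_one_div_add_atTop_nhds_zero_nat
  have h2 : Tendsto (fun N => trunc N (fun n => ex n x) - x) atTop (𝓝 0) :=
    squeeze_zero (fun N => (trunc_ex N x hx).1) (fun N => (trunc_ex N x hx).2) h1
  simpa using h2.add_const x

/-! ### The `q`-deformation of the real numbers -/

/-- `[x]_q` for `x ≥ 1` -/
def P (x : ℝ) : LaurentSeries ℤ := HahnSeries.ofPowerSeries ℤ ℤ (lim fun n => ex n x)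

/-- `F ↦ q⁻¹ (F - 1)` -/
def S (F : LaurentSeries ℤ) : LaurentSeries ℤ := HahnSeries.single (-1) 1 * (F - 1)

lemma P_eq {x : ℝ} (hx : 1 ≤ x) {c : ℕ → ℕ} (hc : IsExpansion c x) :
    P x = HahnSeries.ofPowerSeries ℤ ℤ (lim c) := by
  have : (fun n => ex n x) = c := by
    funext n
    exact (isExpansion_ex hx).unique n hc
  rw [P, this]

lemma IsExpansion.bump {c : ℕ → ℕ} {x : ℝ} (h : IsExpansion c x) :
    IsExpansion (bump c) (x + 1) := by
  refine ⟨bump_ge h.1, ?_⟩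
  simp only [trunc_bump]
  exact h.2.add_const 1

lemma S_P {x : ℝ} (hx : 1 ≤ x) : S (P (x + 1)) = P x := by
  have h1 := isExpansion_ex hx
  rw [P_eq (by linarith) h1.bump, lim_bump _ h1.1, S, map_add,
    map_one (HahnSeries.ofPowerSeries ℤ ℤ), map_mul,
    add_sub_cancel_left, HahnSeries.ofPowerSeries_X, ← mul_assoc, HahnSeries.single_mul_single]
  simp [P]

lemma iter_S_P (k : ℕ) : ∀ x : ℝ, 1 ≤ x → S^[k] (P (x + k)) = P x := by
  induction k with
  | zero => intro x _; simp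
  | succ k ih =>
    intro x hx
    have h0 : (0 : ℝ) ≤ k := Nat.cast_nonneg k
    rw [Function.iterate_succ_apply]
    push_cast
    rw [← add_assoc, S_P (by linarith)]
    exact ih x hx

lemma iter_eq {x : ℝ} {a b : ℕ} (ha : 1 ≤ x + a) (hb : 1 ≤ x + b) :
    S^[a] (P (x + a)) = S^[b] (P (x + b)) := by
  wlog hab : a ≤ b generalizing a b
  · exact (this hb ha (by omega)).symm
  · obtain ⟨k, rfl⟩ := Nat.exists_eq_add_of_le hab
    rw [Function.iterate_add_apply]
    congr 1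
    push_cast
    rw [← add_assoc]
    exact (iter_S_P k (x + a) ha).symm

lemma one_le_add_ceil (x : ℝ) : 1 ≤ x + (⌈1 - x⌉₊ : ℝ) := by
  have := Nat.le_ceil (1 - x)
  linarith

/-- `[x]_q` -/
def QQ (x : ℝ) : LaurentSeries ℤ := S^[⌈1 - x⌉₊] (P (x + (⌈1 - x⌉₊ : ℝ)))

lemma QQ_eq {x : ℝ} (a : ℕ) (ha : 1 ≤ x + a) : QQ x = S^[a] (P (x + a)) :=
  iter_eq (one_le_add_ceil x) ha

lemma isQDeformation_QQ : IsQDeformation QQ where
  expansion := by
    intro x hx c hc
    refine ⟨lim c, isQLimit_lim c hc.1, ?_⟩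
    rw [QQ_eq 0 (by simpa using hx)]
    simpa using P_eq hx hc
  shift := by
    intro x
    have h1 := one_le_add_ceil x
    rw [QQ_eq (⌈1 - x⌉₊ + 1) (by push_cast; linarith), QQ_eq _ h1, Function.iterate_succ_apply']
    have h2 : x - 1 + ((⌈1 - x⌉₊ + 1 : ℕ) : ℝ) = x + (⌈1 - x⌉₊ : ℝ) := by push_cast; ring
    rw [h2]
    rfl

lemma IsQDeformation.eq_iter {Q : ℝ → LaurentSeries ℤ} (hQ : IsQDeformation Q) (k : ℕ) :
    ∀ x : ℝ, Q x = S^[k] (Q (x + k)) := by
  induction k with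
  | zero => intro x; simp
  | succ k ih =>
    intro x
    have h1 := hQ.shift (x + (k + 1 : ℕ))
    have h2 : x + ((k + 1 : ℕ) : ℝ) - 1 = x + k := by push_cast; ring
    rw [h2] at h1
    rw [ih x, h1, Function.iterate_succ_apply]
    rfl

lemma IsQDeformation.eq_P {Q : ℝ → LaurentSeries ℤ} (hQ : IsQDeformation Q) {x : ℝ}
    (hx : 1 ≤ x) : Q x = P x := by
  obtain ⟨s, hs, h⟩ := hQ.expansion x hx _ (isExpansion_ex hx)
  rw [h, P, hs.unique (isQLimit_lim _ (isExpansion_ex hx).1)]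

lemma IsQDeformation.eq_QQ {Q : ℝ → LaurentSeries ℤ} (hQ : IsQDeformation Q) : Q = QQ := by
  funext x
  rw [hQ.eq_iter ⌈1 - x⌉₊ x, hQ.eq_P (one_le_add_ceil x)]
  rfl

/-! ### The radius of convergence -/

/-- Cauchy estimates with radius `R_*` -/
def Bd (F : LaurentSeries ℤ) : Prop := ∃ C : ℝ, ∀ n : ℕ, |((F.coeff n : ℤ) : ℝ)| * Rs ^ n ≤ C

lemma bd_P {x : ℝ} (hx : 1 ≤ x) : Bd (P x) := by
  refine ⟨1 + rho, fun n => ?_⟩
  have h1 := lim_bound (fun n => ex n x) (isExpansion_ex hx).1 n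
  have h2 : (P x).coeff (n : ℤ) = PowerSeries.coeff n (lim fun n => ex n x) := by
    rw [P, HahnSeries.ofPowerSeries_apply_coeff]
  rw [h2]
  exact h1

lemma bd_S {F : LaurentSeries ℤ} (h : Bd F) : Bd (S F) := by
  obtain ⟨C, hC⟩ := h
  refine ⟨C / Rs, fun n => ?_⟩
  have h1 : (S F).coeff (n : ℤ) = F.coeff ((n + 1 : ℕ) : ℤ) := by
    have e : (n : ℤ) = ((n + 1 : ℕ) : ℤ) + (-1) := by push_cast; ring
    rw [S, e, HahnSeries.coeff_single_mul_add, one_mul, HahnSeries.coeff_sub,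
      HahnSeries.coeff_one, if_neg (by push_cast; omega), sub_zero]
  rw [h1, le_div_iff₀ Rs_pos, mul_assoc, ← pow_succ]
  exact hC (n + 1)

lemma bd_iter (k : ℕ) : ∀ {F : LaurentSeries ℤ}, Bd F → Bd (S^[k] F) := by
  induction k with
  | zero => intro F h; exact h
  | succ k ih => intro F h; exact ih (bd_S h)

lemma radius_of_bd {F : LaurentSeries ℤ} (h : Bd F) : ENNReal.ofReal Rs ≤ radius F := by
  obtain ⟨C, hC⟩ := h
  refine FormalMultilinearSeries.le_radius_of_bound _ C fun n => ?_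
  rw [FormalMultilinearSeries.ofScalars_norm, Complex.norm_intCast, Real.coe_toNNReal _ Rs_pos.le]
  exact hC n

/-- **For every real number `x`, the radius of convergence of `[x]_q` is at least
`(3 - √5) / 2`.** There is exactly one family of series `[x]_q`, `x ∈ ℝ`, which for `x ≥ 1` are
the `q`-adic limits of the deformed truncations of the negative continued fractions and satisfy
`[x - 1]_q = q⁻¹ ([x]_q - 1)`, and all these series have radius of convergence at least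
`(3 - √5) / 2`. -/
theorem result :
    (∃! Q : ℝ → LaurentSeries ℤ, IsQDeformation Q) ∧
    ∀ Q : ℝ → LaurentSeries ℤ, IsQDeformation Q →
      ∀ x : ℝ, ENNReal.ofReal ((3 - Real.sqrt 5) / 2) ≤ radius (Q x) := by
  refine ⟨⟨QQ, isQDeformation_QQ, fun Q hQ => hQ.eq_QQ⟩, fun Q hQ x => ?_⟩
  rw [hQ.eq_QQ]
  exact radius_of_bd (bd_iter _ (bd_P (one_le_add_ceil x)))

end

end Pool.Agent.Results.MP_b13893_an.RadiusBound
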